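import Pool.Agent.Helper77.HE.SheetM
import Pool.Agent.Helper71.HN.BRGO
import Pool.Agent.Helper71.HN.PolD

/-!
Project HM: row BRGM, from the sequences to the abstract part.
-/

set_option autoImplicit false

namespace Pool.Agent.Helper72.HM

open Polynomial Filter Finset Pool.Agent.Helper70.SUB Pool.Agent.Helper77.SUBK
  Pool.Agent.Helper70.SUBL Pool.Agent.Helper70.SUBW Pool.Agent.Helper71.JN Pool.Agent.Helper66.JN
  Pool.Agent.Helper71.HN Pool.Agent.Helper71.HZ Pool.Agent.Helper71.HE Pool.Agent.Helper71.HO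
  Pool.Agent.Helper77.HM
open Pool.Agent.Helper94.SUBW (isInt_natM nat_none)

section
variable {M : Type} [Field M] [NumberField M] {S : Finset ℕ} {P : PF S M} {φ : Ultrafilter ℕ}
  {X : ℕ → ℝ}

/-- lower bound for a bound `u` of the sizes of a sequence -/
theorem low_u (hX : Tendsto X (φ : Filter ℕ) atTop) {nu : Pl S M → AbsoluteValue (Om P φ X) ℝ}
    (hN : IsN P φ X nu) (i : Pl S M) (h : Om P φ X) (z : ℕ → M) (hg : gm φ z = (h : UP M φ))
    (b : ℝ) (u : ℕ → ℝ) (hb : ∀ᶠ j in (φ : Filter ℕ), X j ^ b ≤ u j)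
    (hu : ∀ᶠ j in (φ : Filter ℕ), P.nv i.1 (i.2 (z j)) ≤ u j) {ε : ℝ} (hε : 0 < ε) :
    ∀ᶠ j in (φ : Filter ℕ), (Real.log (max (nu i h) (Real.exp b)) - ε) * Real.log (X j) ≤
      Real.log (u j) := by
  by_cases h1 : nu i h ≤ Real.exp b
  · filter_upwards [hX.eventually_ge_atTop 1, hb] with j hj h2
    rw [max_eq_right h1, Real.log_exp]
    have h6 : 0 < X j := by linarith
    have h3 : 0 ≤ Real.log (X j) := Real.log_nonneg hj
    have h4 := Real.log_le_log (Real.rpow_pos_of_pos h6 _) h2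
    rw [Real.log_rpow h6] at h4
    have h5 : 0 ≤ ε * Real.log (X j) := mul_nonneg hε.le h3
    linarith
  · have h1' := not_le.1 h1
    have h0 : 0 < nu i h := (Real.exp_pos b).trans h1'
    have h2 : Real.exp (Real.log (nu i h)) ≤ nu i h := by
      rw [Real.exp_log h0]
    have h3 := ((hN.2 i h z hg _).2).1 h2 ε hε
    filter_upwards [h3, hX.eventually_ge_atTop 1, hu] with j h4 h5 h7
    rw [max_eq_left h1'.le]
    have h6 : 0 < X j := by linarith
    have h8 := Real.log_le_log (Real.rpow_pos_of_pos h6 _) (h4.trans h7)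
    rwa [Real.log_rpow h6] at h8

end

/-- (BRGM) -/
theorem BRGM (hMONG : ST_MONG) (hSSFX : ST_SSFX) (hRDX : ST_RDX) (hOMG : ST_OMG)
    (hOSR : ST_OSR) (hHEART : ST_HEARTM) (hSLW : ST_SLW) (hOIC : ST_OIC) : ST_BRGM := by
  intro M _ _ _ S S₀ P φ V g a m x y X p q ρ uu A η hS hSS hg hη hX hR hsl ha hmx hmy hnx hall
  classical
  have hR1 : ∀ s : {s : {o : Option ℕ // o ∈ plc S₀} × (M ≃ₐ[ℚ] M) //
      ((s.1 : Option ℕ), s.2) ∉ V}, SpM P φ X (p s.1.1 s.1.2) :=
    fun s => (hR s.1.1 s.1.1.2 s.1.2 s.2).1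
  have hR2 : ∀ s : {s : {o : Option ℕ // o ∈ plc S₀} × (M ≃ₐ[ℚ] M) //
      ((s.1 : Option ℕ), s.2) ∉ V}, SpM P φ X (q s.1.1 s.1.2) :=
    fun s => (hR s.1.1 s.1.1.2 s.1.2 s.2).2
  choose t c u hc hu hRs using hR1
  choose t' c' u' hc' hu' hRs' using hR2
  obtain ⟨r, w, hw, hI, hmu, hmw⟩ := hMONG M S P φ X
    ((Σ s : {s : {o : Option ℕ // o ∈ plc S₀} × (M ≃ₐ[ℚ] M) //
      ((s.1 : Option ℕ), s.2) ∉ V}, Fin (t s)) ⊕
      (Σ s : {s : {o : Option ℕ // o ∈ plc S₀} × (M ≃ₐ[ℚ] M) //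
      ((s.1 : Option ℕ), s.2) ∉ V}, Fin (t' s)))
    (Sum.elim (fun s => u s.1 s.2) (fun s => u' s.1 s.2)) hS hX
    (by
      rintro (i | i)
      · exact hu i.1 i.2
      · exact hu' i.1 i.2)
  obtain ⟨D, hD⟩ := hSSFX M S P φ X r w hS hX hw hI
  obtain ⟨g1, g2, g3, g4, g5, g6, g7, g8⟩ := hOMG M S P φ X hS hX
  have : CharZero (Om P φ X) := g6
  obtain ⟨rd1, rd2⟩ := hRDX M S P φ X r w D hS hX hw hD
  obtain ⟨-, -, -, sl4, sl5, -, sl7, -, -, -, -, -, -⟩ := hSLW M S P φ X hS hX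
  obtain ⟨-, -, -, -, -, -, -, os8, -⟩ := hOSR M S P φ X hS hX
  have hX1 := hX.eventually_ge_atTop 1
  -- the exponent
  obtain ⟨A', hA'⟩ : ∃ A' : ℝ, A' = max A 1 := ⟨_, rfl⟩
  have hA1 : 1 ≤ A' := hA' ▸ le_max_right _ _
  have hA0 : 0 ≤ A' := by linarith
  have hmA : ∀ᶠ j in (φ : Filter ℕ), (m j : ℝ) ≤ X j ^ A' := by
    filter_upwards [hall, hX1] with j h1 h2
    exact h1.2.2.2.1.trans (Real.rpow_le_rpow_of_exponent_le h2 (hA' ▸ le_max_left _ _))
  have hxA : ∀ᶠ j in (φ : Filter ℕ), ∀ o ∈ plc S, ∀ σ : M ≃ₐ[ℚ] M,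
      P.nv o (σ (x j)) ≤ X j ^ A' := by
    filter_upwards [hall, hX1] with j h1 h2
    intro o ho σ
    exact (h1.2.2.2.2.1 o ho σ).trans
      (Real.rpow_le_rpow_of_exponent_le h2 (hA' ▸ le_max_left _ _))
  have haA : ∀ᶠ j in (φ : Filter ℕ), ∀ i ∈ range (2 * g + 2), ∀ o ∈ plc S,
      ∀ σ : M ≃ₐ[ℚ] M, P.nv o (σ (a i j)) ≤ X j := by
    rw [Filter.eventually_all_finset]
    intro i hi
    rw [Filter.eventually_all_finset]
    intro o ho
    rw [Filter.eventually_all]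
    intro σ
    have h1 := sl5 (a i) (ha i (Finset.mem_range.1 hi)) o ho σ 1 one_pos
    filter_upwards [h1] with j h2
    rwa [Real.rpow_one] at h2
  have hev : ∀ᶠ j in (φ : Filter ℕ), y j ^ 2 = (x j) ^ (2 * g + 2) +
      ∑ i ∈ range (2 * g + 2), a i j * (x j) ^ i := by
    filter_upwards [hall] with j h1
    have h8 := polD_eval (R := M) (S := M) (2 * g + 2) (fun i => a i j) (x j)
    rw [coe_aeval_eq_eval] at h8
    rw [h1.2.1, h8]
    rfl
  have hyA : ∀ᶠ j in (φ : Filter ℕ), ∀ o ∈ plc S, ∀ σ : M ≃ₐ[ℚ] M,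
      P.nv o (σ (y j)) ≤ X j * (X j ^ A') ^ (2 * g + 2) := by
    filter_upwards [hev, hxA, haA, hX.eventually_ge_atTop (2 * g + 3)] with j h5 h2 h3 h4
    intro o ho σ
    obtain ⟨Y, hY⟩ : ∃ Y : ℝ, Y = X j ^ A' := ⟨_, rfl⟩
    have hg0 : (0 : ℝ) ≤ g := Nat.cast_nonneg g
    have hX1' : 1 ≤ X j := by linarith
    have hY1 : 1 ≤ Y := by
      rw [hY]
      exact Real.one_le_rpow hX1' hA0
    have h2' := h2 o ho σ
    rw [← hY] at h2' ⊢
    have h6 : P.nv o (σ (y j)) ^ 2 ≤ Y ^ (2 * g + 2) + ∑ i ∈ range (2 * g + 2),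
        X j * Y ^ (2 * g + 2) := by
      rw [← P.pow ho, ← map_pow, h5, map_add]
      refine (P.add o ho _ _).trans (add_le_add ?_ ?_)
      · rw [map_pow, P.pow ho]
        exact pow_le_pow_left₀ (P.nn _ _) h2' _
      · rw [map_sum]
        refine (P.sum_le ho _ _).trans (Finset.sum_le_sum fun i hi => ?_)
        rw [map_mul, map_pow, P.mul o ho, P.pow ho]
        refine mul_le_mul (h3 i hi o ho σ) ?_ (pow_nonneg (P.nn _ _) _) (by linarith)
        exact (pow_le_pow_left₀ (P.nn _ _) h2' _).trans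
          (pow_le_pow_right₀ hY1 (Finset.mem_range.1 hi).le)
    rw [Finset.sum_const, Finset.card_range, nsmul_eq_mul] at h6
    have h7 : (1 : ℝ) ≤ Y ^ (2 * g + 2) := one_le_pow₀ hY1
    have h8 : P.nv o (σ (y j)) ^ 2 ≤ (X j * Y ^ (2 * g + 2)) ^ 2 := by
      refine h6.trans ?_
      have e1 : (X j * Y ^ (2 * g + 2)) ^ 2 = (X j * Y ^ (2 * g + 2)) * (X j * Y ^ (2 * g + 2)) := by
        ring
      have h9 : (2 * (g : ℝ) + 3) ≤ X j * Y ^ (2 * g + 2) := by nlinarith
      have h10 : 0 ≤ X j * Y ^ (2 * g + 2) := by positivity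
      have h11 : Y ^ (2 * g + 2) ≤ X j * Y ^ (2 * g + 2) := by nlinarith
      rw [e1]
      push_cast
      nlinarith [mul_le_mul_of_nonneg_right h9 h10]
    exact (pow_le_pow_iff_left₀ (P.nn o _) (by positivity) (by norm_num)).1 h8
  have hmb : ∀ᶠ j in (φ : Filter ℕ), |((m j : ℤ) : ℝ)| ≤ X j ^ A' := by
    filter_upwards [hmA] with j h1
    rw [Int.cast_natCast, abs_of_nonneg (Nat.cast_nonneg _)]
    exact h1
  have hmnv : ∀ᶠ j in (φ : Filter ℕ), ∀ o ∈ plc S, P.nv o (m j : M) ≤ X j ^ A' := by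
    filter_upwards [hmA, hX1] with j h1 h2
    intro o ho
    by_cases h0 : o = none
    · rw [h0, nat_none]
      exact h1
    · exact (nv_nat_le P hS ho h0 (m j)).trans (Real.one_le_rpow h2 hA0)
  -- the classes
  have hmOS : OS P φ X (fun j => (m j : M)) := by
    have h1 := os8 (fun j => (m j : ℤ)) A' hmb
    have e : (fun j => (((m j : ℕ) : ℤ) : M)) = fun j => (m j : M) := by
      funext j
      exact Int.cast_natCast _
    rwa [e] at h1
  have hSImono : ∀ z : ℕ → M, IntT S₀ φ X z → ∀ ε : ℝ, 0 < ε → ∀ᶠ j in (φ : Filter ℕ),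
      ∃ D : ℕ, D ≠ 0 ∧ (D : ℝ) ≤ X j ^ ε ∧ SI S ((D : M) * z j) := by
    intro z hz ε hε
    filter_upwards [hz ε hε] with j h
    obtain ⟨D, h1, h2, h3⟩ := h
    exact ⟨D, h1, h2, Pool.Agent.Helper94.SUBK.SI_mono hSS h3⟩
  have hmxOS : OS P φ X (fun j => (m j : M) * x j) := by
    refine ⟨hSImono _ hmx, A' + A', by linarith, ?_⟩
    filter_upwards [hmnv, hxA, hX1] with j h1 h2 h3
    intro o ho σ
    rw [map_mul, map_natCast, P.mul o ho, Real.rpow_add (by linarith)]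
    exact mul_le_mul (h1 o ho) (h2 o ho σ) (P.nn _ _) (by positivity)
  have hmyOS : OS P φ X (fun j => (m j : M) ^ (g + 1) * y j) := by
    refine ⟨hSImono _ hmy, A' * ((g + 1 : ℕ) : ℝ) + (1 + A' * ((2 * g + 2 : ℕ) : ℝ)),
      by positivity, ?_⟩
    filter_upwards [hmnv, hyA, hX1] with j h1 h2 h3
    intro o ho σ
    have hX0 : 0 < X j := by linarith
    rw [map_mul, map_pow, map_natCast, P.mul o ho, P.pow ho,
      Real.rpow_add hX0, Real.rpow_add hX0, Real.rpow_one, Real.rpow_mul hX0.le,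
      Real.rpow_mul hX0.le, Real.rpow_natCast, Real.rpow_natCast]
    exact mul_le_mul (pow_le_pow_left₀ (P.nn _ _) (h1 o ho) _) (h2 o ho σ) (P.nn _ _)
      (by positivity)
  obtain ⟨gm', hgm⟩ : ∃ z : Om P φ X, gm φ (fun j => (m j : M)) = (z : UP M φ) :=
    ⟨⟨_, g4 _ hmOS⟩, rfl⟩
  obtain ⟨gmx, hgmx⟩ : ∃ z : Om P φ X, gm φ (fun j => (m j : M) * x j) = (z : UP M φ) :=
    ⟨⟨_, g4 _ hmxOS⟩, rfl⟩
  obtain ⟨gmy, hgmy⟩ : ∃ z : Om P φ X, gm φ (fun j => (m j : M) ^ (g + 1) * y j) =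
      (z : UP M φ) := ⟨⟨_, g4 _ hmyOS⟩, rfl⟩
  have hgmO : gm' ∈ D.O := (hD.hO gm').2 ((g1 _).2 ⟨_, hmOS, hgm⟩)
  have hgmxO : gmx ∈ D.O := (hD.hO gmx).2 ((g1 _).2 ⟨_, hmxOS, hgmx⟩)
  have hgmyO : gmy ∈ D.O := (hD.hO gmy).2 ((g1 _).2 ⟨_, hmyOS, hgmy⟩)
  have hgm0 : gm' ≠ 0 := by
    intro h0
    rw [h0] at hgm
    have h1 : gm φ (fun j => (m j : M)) = gm φ (fun _ => (0 : M)) := by
      rw [hgm]
      rfl
    rw [Pool.Agent.Helper47.SUBW.gm_eq] at h1
    obtain ⟨j, h2, h3⟩ := (h1.and hall).exists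
    exact h3.2.2.1 (by exact_mod_cast h2)
  have hgm0' : ((gm' : Om P φ X) : UP M φ) ≠ 0 := by
    intro h
    exact hgm0 (Subtype.ext h)
  obtain ⟨gx, hgx⟩ : ∃ z : Om P φ X, gm φ x = (z : UP M φ) := by
    refine ⟨gmx / gm', ?_⟩
    push_cast
    rw [← hgmx, ← hgm, eq_div_iff (by rw [hgm]; exact hgm0')]
    show gm φ (fun j => x j * (m j : M)) = _
    rw [Pool.Agent.Helper47.SUBW.gm_eq]
    filter_upwards with j
    ring
  obtain ⟨gy, hgy⟩ : ∃ z : Om P φ X, gm φ y = (z : UP M φ) := by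
    refine ⟨gmy / gm' ^ (g + 1), ?_⟩
    push_cast
    rw [← hgmy, ← hgm, eq_div_iff (pow_ne_zero _ (by rw [hgm]; exact hgm0'))]
    show gm φ (fun j => y j * (m j : M) ^ (g + 1)) = _
    rw [Pool.Agent.Helper47.SUBW.gm_eq]
    filter_upwards with j
    ring
  have hmx_eq : gm' * gx = gmx := by
    apply Subtype.ext
    push_cast
    rw [← hgmx, ← hgm, ← hgx]
    rfl
  have hmy_eq : gm' ^ (g + 1) * gy = gmy := by
    apply Subtype.ext
    push_cast
    rw [← hgmy, ← hgm, ← hgy]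
    rfl
  -- `x` is not slow
  have hgnx : ∀ s : Sl P φ X, gx ≠ algebraMap (Sl P φ X) (Om P φ X) s := by
    intro s hs
    have h1 : gx ∈ Sl P φ X := by
      rw [hs]
      exact s.2
    obtain ⟨z, h2, h3⟩ := (g3 gx).1 h1
    rw [← hgx, Pool.Agent.Helper47.SUBW.gm_eq] at h3
    exact hnx (sl7 z x h3 h2)
  -- `p` and `q`
  have hRD : ∀ s : {s : {o : Option ℕ // o ∈ plc S₀} × (M ≃ₐ[ℚ] M) //
      ((s.1 : Option ℕ), s.2) ∉ V}, ∃ z ∈ D.R,
      gm φ (p s.1.1 s.1.2) = ((z : Om P φ X) : UP M φ) := by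
    intro s
    refine rd2 (t s) (c s) (u s) _ (hc s) (fun i => ?_) (hRs s)
    obtain ⟨e, k, he, hk⟩ := hmu (Sum.inl ⟨s, i⟩) 1
    refine ⟨e, k, he, ?_⟩
    filter_upwards [hk] with j hj
    exact hj
  have hRD' : ∀ s : {s : {o : Option ℕ // o ∈ plc S₀} × (M ≃ₐ[ℚ] M) //
      ((s.1 : Option ℕ), s.2) ∉ V}, ∃ z ∈ D.R,
      gm φ (q s.1.1 s.1.2) = ((z : Om P φ X) : UP M φ) := by
    intro s
    refine rd2 (t' s) (c' s) (u' s) _ (hc' s) (fun i => ?_) (hRs' s)
    obtain ⟨e, k, he, hk⟩ := hmu (Sum.inr ⟨s, i⟩) 1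
    refine ⟨e, k, he, ?_⟩
    filter_upwards [hk] with j hj
    exact hj
  have hN := hD.hN
  have hRex : ∀ i : Pl S M, ∃ R : Om P φ X, R ∈ D.K ∧
      ((i.1 : Option ℕ) ∈ plc S₀ → gm φ (ρ i.1 i.2) = (R : UP M φ)) ∧
      ((i.1 : Option ℕ) ∈ plc S₀ → ((i.1 : Option ℕ), i.2) ∈ V →
        ∃ s : Sl P φ X, R = algebraMap (Sl P φ X) (Om P φ X) s) ∧
      ((i.1 : Option ℕ) ∉ plc S₀ → R = 0) := by
    intro i
    by_cases h : (i.1 : Option ℕ) ∈ plc S₀
    · by_cases hV : ((i.1 : Option ℕ), i.2) ∈ V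
      · have h1 := hsl i.1 h i.2 hV
        have h2 : (⟨_, g5 _ h1⟩ : Om P φ X) ∈ Sl P φ X := (g3 _).2 ⟨_, h1, rfl⟩
        refine ⟨⟨_, g5 _ h1⟩, ?_, fun _ => rfl, fun _ _ => ⟨⟨_, h2⟩, rfl⟩,
          fun h' => absurd h h'⟩
        exact D.K.algebraMap_mem ⟨_, h2⟩
      · obtain ⟨z, hz, hz'⟩ := hRD ⟨(⟨i.1, h⟩, i.2), hV⟩
        obtain ⟨z', hz1, hz2⟩ := hRD' ⟨(⟨i.1, h⟩, i.2), hV⟩
        refine ⟨z / z', D.K.div_mem (Pool.Agent.Helper47.JN.R_le_K D _ hz)
          (Pool.Agent.Helper47.JN.R_le_K D _ hz1), fun _ => ?_, fun _ h' => absurd h' hV,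
          fun h' => absurd h h'⟩
        push_cast
        rw [← hz', ← hz2]
        show gm φ (ρ i.1 i.2) = gm φ (fun j => p i.1 i.2 j / q i.1 i.2 j)
        rw [Pool.Agent.Helper47.SUBW.gm_eq]
        filter_upwards [hall] with j hj
        exact ((hj.2.2.2.2.2.1 i.1 h i.2).2.2 hV).2.2
    · exact ⟨0, D.K.zero_mem, fun h' => absurd h' h, fun h' => absurd h' h, fun _ => rfl⟩
  choose R hK hRg hRV hR0 using hRex
  set cc : Pl S M → ℝ := fun i =>
    if (i.1 : Option ℕ) ∈ plc S₀ then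
      Real.log (max (D.nu i (gx - R i))
        (Real.exp (if ((i.1 : Option ℕ), i.2) ∈ V then -A' else 0)))
    else Real.log (max 1 (D.nu i gx)) with hcc
  have hcR : ∀ i, D.nu i (gx - R i) ≤ Real.exp (cc i) := by
    intro i
    rw [hcc]
    dsimp only
    split_ifs with h1 h2
    · rw [Real.exp_log (lt_max_of_lt_right (Real.exp_pos _))]
      exact le_max_left _ _
    · rw [Real.exp_log (lt_max_of_lt_right (Real.exp_pos _))]
      exact le_max_left _ _
    · rw [Real.exp_log (lt_max_of_lt_left one_pos), hR0 i h1, sub_zero]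
      exact le_max_right _ _
  have hc0 : ∀ i, 0 ≤ cc i ∨ ∃ s : Sl P φ X, R i = algebraMap (Sl P φ X) (Om P φ X) s := by
    intro i
    by_cases h1 : (i.1 : Option ℕ) ∈ plc S₀
    · by_cases h2 : ((i.1 : Option ℕ), i.2) ∈ V
      · exact Or.inr (hRV i h1 h2)
      · left
        rw [hcc]
        dsimp only
        rw [if_pos h1, if_neg h2, Real.exp_zero]
        exact Real.log_nonneg (le_max_right _ _)
    · left
      rw [hcc]
      dsimp only
      rw [if_neg h1]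
      exact Real.log_nonneg (le_max_left _ _)
  have hm1 : ∀ i : Pl S M, (i.1 : Option ℕ) ≠ none → D.nu i gm' ≤ 1 := by
    intro i hi
    have h1 : LeA P φ X i (fun j => (m j : M)) 0 := by
      intro ε hε
      filter_upwards [hX1] with j h2
      rw [zero_add, map_natCast]
      exact (nv_nat_le P hS i.1.2 hi (m j)).trans (Real.one_le_rpow h2 hε.le)
    have h2 := ((hN.2 i gm' _ hgm 0).1).2 h1
    rwa [Real.exp_zero] at h2
  -- the main inequality
  set Fn : Pl S M → ℝ := fun i => 4 * Real.log (D.nu i gm') + cc i -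
    Real.log (max 1 (D.nu i gx)) with hFn
  have hFfin : ∀ i : Pl S M, (i.1 : Option ℕ) ∉ plc S₀ → Fn i ≤ 0 := by
    intro i hi
    have hi0 : (i.1 : Option ℕ) ≠ none := fun h' => hi (h' ▸ mem_none)
    have h1 : Real.log (D.nu i gm') ≤ 0 := Real.log_nonpos ((D.nu i).nonneg _) (hm1 i hi0)
    have h2 : cc i = Real.log (max 1 (D.nu i gx)) := by
      rw [hcc]
      dsimp only
      rw [if_neg hi]
    rw [hFn]
    dsimp only
    rw [h2]
    linarith
  have hmain : ∑ i, Fn i < 0 := by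
    obtain ⟨cd, hcd⟩ : ∃ cd : ℝ, cd = (Fintype.card (M ≃ₐ[ℚ] M) : ℝ) := ⟨_, rfl⟩
    have hcd1 : 0 < cd := by
      rw [hcd]
      exact_mod_cast Fintype.card_pos
    obtain ⟨ns, hns⟩ : ∃ ns : ℝ, ns = (Fintype.card {v : Option ℕ // v ∈ plc S} : ℝ) :=
      ⟨_, rfl⟩
    have hns1 : 0 < ns := by
      rw [hns]
      have : Nonempty {v : Option ℕ // v ∈ plc S} := ⟨⟨none, mem_none⟩⟩
      exact_mod_cast Fintype.card_pos
    obtain ⟨ε, hε⟩ : ∃ ε : ℝ, ε = η / (12 * cd * ns) := ⟨_, rfl⟩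
    have hε0 : 0 < ε := by rw [hε]; positivity
    have e1 : ∀ᶠ j in (φ : Filter ℕ), ∀ i : Pl S M, (i.1 : Option ℕ) = none →
        (Real.log (D.nu i gm') - ε) * Real.log (X j) ≤ Real.log (m j) := by
      rw [Filter.eventually_all]
      intro i
      filter_upwards [low_log hX hN i gm' hgm0 _ hgm hε0] with j h1
      intro hi
      refine h1.trans (le_of_eq ?_)
      rw [hi, map_natCast, nat_none]
    have e2 : ∀ᶠ j in (φ : Filter ℕ), ∀ i : Pl S M, (i.1 : Option ℕ) ∈ plc S₀ →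
        (cc i - ε) * Real.log (X j) ≤ Real.log (uu i.1 i.2 j) := by
      rw [Filter.eventually_all]
      intro i
      by_cases hi : (i.1 : Option ℕ) ∈ plc S₀
      swap
      · exact Filter.Eventually.of_forall fun j h => absurd h hi
      have h1 : gm φ (fun j => x j - ρ i.1 i.2 j) = ((gx - R i : Om P φ X) : UP M φ) := by
        push_cast
        rw [← hgx, ← hRg i hi]
        rfl
      have h2 : ∀ᶠ j in (φ : Filter ℕ),
          X j ^ (if ((i.1 : Option ℕ), i.2) ∈ V then -A' else 0 : ℝ) ≤ uu i.1 i.2 j := by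
        filter_upwards [hall, hX1] with j h3 h4
        have h5 := h3.2.2.2.2.2.1 i.1 hi i.2
        split_ifs with h6
        · exact (Real.rpow_le_rpow_of_exponent_le h4
            (neg_le_neg (hA' ▸ le_max_left _ _))).trans h5.1
        · rw [Real.rpow_zero]
          exact (h5.2.2 h6).1
      have h3 : ∀ᶠ j in (φ : Filter ℕ), P.nv i.1 (i.2 (x j - ρ i.1 i.2 j)) ≤ uu i.1 i.2 j := by
        filter_upwards [hall] with j h4
        exact (h4.2.2.2.2.2.1 i.1 hi i.2).2.1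
      filter_upwards [low_u hX hN i _ _ h1 _ _ h2 h3 hε0] with j h4
      intro _
      rw [hcc]
      dsimp only
      rw [if_pos hi]
      exact h4
    have e3 : ∀ᶠ j in (φ : Filter ℕ), ∀ i : Pl S M,
        Real.log (max 1 (P.nv i.1 (i.2 (x j)))) ≤
          (Real.log (max 1 (D.nu i gx)) + ε) * Real.log (X j) := by
      rw [Filter.eventually_all]
      intro i
      exact upp_max hX hN i gx x hgx hε0
    obtain ⟨j, h1, h2, h3, h4, h5⟩ :=
      (e1.and (e2.and (e3.and (hall.and (hX.eventually_ge_atTop (Real.exp 1)))))).exists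
    have hL : 1 ≤ Real.log (X j) := by
      have := Real.log_le_log (Real.exp_pos 1) h5
      rwa [Real.log_exp] at this
    have h6 := h4.2.2.2.2.2.2
    obtain ⟨L, hLd⟩ : ∃ L : ℝ, L = Real.log (X j) := ⟨_, rfl⟩
    rw [← hLd] at h1 h2 h3 h6 hL
    set U : Option ℕ → ℝ := fun o => ∑ σ : M ≃ₐ[ℚ] M,
      (Real.log (uu o σ j) - Real.log (max 1 (P.nv o (σ (x j))))) with hU
    set W : Option ℕ → ℝ := fun o => (if o ∈ plc S₀ then U o else 0) +
      (if o = none then cd * (4 * Real.log (m j)) else 0) with hW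
    have hv : ∀ v : {v : Option ℕ // v ∈ plc S}, (∑ σ : M ≃ₐ[ℚ] M, Fn (v, σ)) * L ≤
        W v + cd * (6 * ε * L) := by
      intro v
      by_cases hv0 : (v : Option ℕ) ∈ plc S₀
      · by_cases hvn : (v : Option ℕ) = none
        · have h7 : (∑ σ : M ≃ₐ[ℚ] M, Fn (v, σ)) * L ≤ ∑ σ : M ≃ₐ[ℚ] M,
              ((Real.log (uu v σ j) - Real.log (max 1 (P.nv v (σ (x j))))) +
              (4 * Real.log (m j) + 6 * ε * L)) := by
            rw [Finset.sum_mul]
            refine Finset.sum_le_sum fun σ _ => ?_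
            have i1 := h1 (v, σ) hvn
            have i2 := h2 (v, σ) hv0
            have i3 := h3 (v, σ)
            rw [hFn]
            dsimp only at i1 i2 i3 ⊢
            nlinarith
          rw [Finset.sum_add_distrib, Finset.sum_const, Finset.card_univ, nsmul_eq_mul,
            ← hcd] at h7
          rw [hW]
          dsimp only
          rw [if_pos hv0, if_pos hvn, hU]
          dsimp only
          linarith
        · have h7 : (∑ σ : M ≃ₐ[ℚ] M, Fn (v, σ)) * L ≤ ∑ σ : M ≃ₐ[ℚ] M,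
              ((Real.log (uu v σ j) - Real.log (max 1 (P.nv v (σ (x j))))) + 6 * ε * L) := by
            rw [Finset.sum_mul]
            refine Finset.sum_le_sum fun σ _ => ?_
            have i1 : Real.log (D.nu (v, σ) gm') ≤ 0 :=
              Real.log_nonpos ((D.nu (v, σ)).nonneg _) (hm1 (v, σ) hvn)
            have i2 := h2 (v, σ) hv0
            have i3 := h3 (v, σ)
            have i4 : Real.log (D.nu (v, σ) gm') * L ≤ 0 :=
              mul_nonpos_of_nonpos_of_nonneg i1 (by linarith)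
            have i5 : 0 ≤ ε * L := mul_nonneg hε0.le (by linarith)
            rw [hFn]
            dsimp only at i2 i3 i4 ⊢
            nlinarith
          rw [Finset.sum_add_distrib, Finset.sum_const, Finset.card_univ, nsmul_eq_mul,
            ← hcd] at h7
          rw [hW]
          dsimp only
          rw [if_pos hv0, if_neg hvn, hU]
          dsimp only
          linarith
      · have hvn : (v : Option ℕ) ≠ none := fun h' => hv0 (h' ▸ mem_none)
        have h7 : ∑ σ : M ≃ₐ[ℚ] M, Fn (v, σ) ≤ 0 :=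
          Finset.sum_nonpos fun σ _ => hFfin (v, σ) hv0
        have h8 : (∑ σ : M ≃ₐ[ℚ] M, Fn (v, σ)) * L ≤ 0 :=
          mul_nonpos_of_nonpos_of_nonneg h7 (by linarith)
        have h9 : 0 ≤ cd * (6 * ε * L) := by
          have : 0 ≤ L := by linarith
          positivity
        rw [hW]
        dsimp only
        rw [if_neg hv0, if_neg hvn]
        linarith
    have h7 : (∑ i, Fn i) * L ≤ ∑ v : {v : Option ℕ // v ∈ plc S}, W v +
        ns * (cd * (6 * ε * L)) := by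
      rw [Fintype.sum_prod_type, Finset.sum_mul]
      refine (Finset.sum_le_sum fun v _ => hv v).trans (le_of_eq ?_)
      rw [Finset.sum_add_distrib, Finset.sum_const, Finset.card_univ, nsmul_eq_mul, hns]
    have h8 : ∑ v : {v : Option ℕ // v ∈ plc S}, W v =
        ∑ o ∈ plc S₀, U o + cd * (4 * Real.log (m j)) := by
      rw [Finset.sum_coe_sort (plc S) W, hW, Finset.sum_add_distrib]
      congr 1
      · rw [← Finset.sum_filter]
        refine Finset.sum_congr ?_ fun _ _ => rfl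
        ext o
        rw [Finset.mem_filter]
        exact ⟨fun h => h.2, fun h => ⟨plc_mono hSS h, h⟩⟩
      · rw [Finset.sum_ite_eq' (plc S) none, if_pos mem_none]
    have h9 : ∑ o ∈ plc S₀, U o = ∑ o ∈ plc S₀, ∑ σ : M ≃ₐ[ℚ] M, Real.log (uu o σ j) -
        ∑ o ∈ plc S₀, ∑ σ : M ≃ₐ[ℚ] M, Real.log (max 1 (P.nv o (σ (x j)))) := by
      rw [← Finset.sum_sub_distrib]
      refine Finset.sum_congr rfl fun o _ => ?_
      rw [hU]
      dsimp only
      rw [Finset.sum_sub_distrib]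
    have h10 : ns * (cd * (6 * ε * L)) = 1 / 2 * η * L := by
      rw [hε]
      field_simp
      ring
    rw [h8, h9, h10] at h7
    rw [← hcd] at h6
    have h11 : 0 < η * L := by positivity
    have h12 : (∑ i, Fn i) * L < 0 := by linarith
    by_contra hc
    have := mul_nonneg (not_lt.1 hc) (by linarith : 0 ≤ L)
    linarith
  -- the polynomial
  have hci : ∀ i, ∃ b : Sl P φ X, i < 2 * g + 2 →
      gm φ (a i) = ((b : Om P φ X) : UP M φ) := by
    intro i
    by_cases hi : i < 2 * g + 2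
    · have h1 := g5 _ (ha i hi)
      exact ⟨⟨⟨_, h1⟩, (g3 _).2 ⟨_, ha i hi, rfl⟩⟩, fun _ => rfl⟩
    · exact ⟨0, fun h => absurd h hi⟩
  choose b hb' using hci
  set f : (Sl P φ X)[X] := polD (Sl P φ X) (2 * g + 2) b with hf
  have hmap : f.map ((Om P φ X).subtype.comp (Sl P φ X).subtype) =
      polD (UP M φ) (2 * g + 2) (fun i => gm φ (a i)) := by
    rw [hf, polD_map]
    exact polD_congr (2 * g + 2) fun i hi => (hb' i hi).symm
  have hfs : f.Separable := by
    rw [← separable_map ((Om P φ X).subtype.comp (Sl P φ X).subtype), hmap]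
    refine sepD_up φ (2 * g + 2) (by omega) a ?_
    filter_upwards [hall] with j h1
    exact h1.1
  have hcu : gy ^ 2 = aeval gx f := by
    apply Subtype.ext
    rw [hf, polD_eval]
    push_cast
    rw [← hgx, ← hgy]
    have h1 : ∀ i ∈ range (2 * g + 2), ((algebraMap (Sl P φ X) (Om P φ X) (b i) : Om P φ X) :
        UP M φ) * gm φ x ^ i = gm φ (fun j => a i j * x j ^ i) := by
      intro i hi
      have h2 : ((algebraMap (Sl P φ X) (Om P φ X) (b i) : Om P φ X) : UP M φ) =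
          gm φ (a i) := (hb' i (Finset.mem_range.1 hi)).symm
      rw [h2]
      rfl
    rw [Finset.sum_congr rfl h1]
    have h3 : ∑ i ∈ range (2 * g + 2), gm φ (fun j => a i j * x j ^ i) =
        gm φ (fun j => ∑ i ∈ range (2 * g + 2), a i j * x j ^ i) := by
      have h4 := map_sum (Germ.coeRingHom (φ : Filter ℕ) : (ℕ → M) →+* Germ (φ : Filter ℕ) M)
        (fun i => fun j => a i j * x j ^ i) (range (2 * g + 2))
      refine h4.symm.trans ?_
      show gm φ (∑ i ∈ range (2 * g + 2), fun j => a i j * x j ^ i) = _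
      congr 1
      funext j
      rw [Finset.sum_apply]
    rw [h3]
    show gm φ (fun j => y j ^ 2) = gm φ (fun j => x j ^ (2 * g + 2) +
      ∑ i ∈ range (2 * g + 2), a i j * x j ^ i)
    rw [Pool.Agent.Helper47.SUBW.gm_eq]
    exact hev
  have hH : HM D g f gm' gx gy R cc := by
    refine
      { hg := hg
        fm := polD_monic _ b
        fd := polD_natDegree _ b
        fs := hfs
        ic := hOIC M S P φ X r w D hS hX hw hD
        m0 := hgm0
        mO := hgmO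
        xO := by rw [hmx_eq]; exact hgmxO
        yO := by rw [hmy_eq]; exact hgmyO
        cu := hcu
        nx := hgnx
        RR := hK
        cR := hcR
        c0 := hc0
        main := ?_ }
    have h1 : ∑ i, Fn i = 4 * ∑ i, Real.log (D.nu i gm') + ∑ i, cc i -
        ∑ i, Real.log (max 1 (D.nu i gx)) := by
      rw [hFn, Finset.sum_sub_distrib, Finset.sum_add_distrib, ← Finset.mul_sum]
    rw [h1] at hmain
    linarith
  exact hHEART _ _ _ r D g f gm' gx gy _ _ hH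

end Pool.Agent.Helper72.HM
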